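import Pool.Agent.CRk.Final

set_option autoImplicit false

/-! Multiple recurrence for three non-commuting measure preserving maps at the times `m`, `m + n`,
`m + 2n`, when the three maps have only finitely many independent generalised eigenvalues in
common. -/

open MeasureTheory

universe u

namespace Pool.Agent.Results.MP_cfac66_an.CommonFiniteRank

open Pool.Agent.FSP Pool.Agent.Ind3 Pool.Agent.CRk

/-- `v` is a generalised eigenfunction of `Q` with eigenvalue `lam`: both are measurable, `lam` has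
modulus one and is `Q`-invariant, and `v (Q x) = lam x * v x` for almost every `x`. -/
def IsGenEigen {Ω : Type u} [MeasurableSpace Ω] (μ : Measure Ω) (Q : Ω → Ω) (v lam : Ω → ℂ) :
    Prop :=
  Measurable v ∧ Measurable lam ∧ (∀ x, ‖lam x‖ = 1) ∧ (∀ x, lam (Q x) = lam x) ∧
    ∀ᵐ x ∂μ, v (Q x) = lam x * v x

/-- `Λ` is a countable group of complex numbers of modulus one. -/
def IsCountableGroup (Λ : Set ℂ) : Prop :=
  Λ.Countable ∧ (∀ z ∈ Λ, ‖z‖ = 1) ∧ (1 : ℂ) ∈ Λ ∧ (∀ z ∈ Λ, ∀ w ∈ Λ, z * w ∈ Λ) ∧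
    ∀ z ∈ Λ, z⁻¹ ∈ Λ

/-- At almost every point of `Z` the maps `T, S, R` have at most `k` generalised eigenvalues in
common that are independent modulo `Λ`: whenever `u i`, `v i`, `w i` (`i = 0, .., k`) are
generalised eigenfunctions of `T`, of `S` and of `R` with eigenvalues `α i`, `β i`, `γ i`, then for
almost every `x ∈ Z` at which none of them vanishes and at which `α i x`, `β i x`, `γ i x` are equal
modulo `Λ` for every `i`, some product `∏ i, α i x ^ a i` with integers `a i`, not all zero, lies in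
`Λ`. -/
def CommonRankAtMost {Ω : Type u} [MeasurableSpace Ω] (μ : Measure Ω) (T S R : Ω → Ω) (Λ : Set ℂ)
    (Z : Set Ω) (k : ℕ) : Prop :=
  ∀ u v w α β γ : Fin (k + 1) → Ω → ℂ, (∀ i, IsGenEigen μ T (u i) (α i)) →
    (∀ i, IsGenEigen μ S (v i) (β i)) → (∀ i, IsGenEigen μ R (w i) (γ i)) →
    ∀ᵐ x ∂μ, x ∈ Z → (∀ i, u i x ≠ 0 ∧ v i x ≠ 0 ∧ w i x ≠ 0) →
      (∀ i, α i x / β i x ∈ Λ ∧ α i x / γ i x ∈ Λ) →
      ∃ a : Fin (k + 1) → ℤ, a ≠ 0 ∧ ∏ i, α i x ^ a i ∈ Λ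

/-- Let `T, S, R` be invertible measure preserving maps of a probability space, `A` and `Z`
measurable sets with `μ (A ∩ Z) ≠ 0`, and suppose that for some `k` and some countable group `Λ` of
constants the three maps have at almost every point of `Z` at most `k` generalised eigenvalues in
common that are independent modulo `Λ`. Then for some `m, n ≥ 1` the set
`A ∩ T^{-m}A ∩ S^{-(m+n)}A ∩ R^{-(m+2n)}A` has positive measure. -/
theorem result (Ω : Type u) [MeasurableSpace Ω] (μ : Measure Ω)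
    [IsProbabilityMeasure μ]
    (T S R : Ω ≃ᵐ Ω) (hT : MeasurePreserving T μ μ) (hS : MeasurePreserving S μ μ)
    (hR : MeasurePreserving R μ μ) (A : Set Ω) (hA : MeasurableSet A)
    (Z : Set Ω) (hZ : MeasurableSet Z) (hAZ : μ (A ∩ Z) ≠ 0) (k : ℕ) (Λ : Set ℂ)
    (hΛ : IsCountableGroup Λ) (hrk : CommonRankAtMost μ T S R Λ Z k) :
    ∃ m n : ℕ, 1 ≤ m ∧ 1 ≤ n ∧
      μ (A ∩ (⇑T)^[m] ⁻¹' A ∩ (⇑S)^[m + n] ⁻¹' A ∩ (⇑R)^[m + 2 * n] ⁻¹' A) ≠ 0 := by
  have hcont : Continuous (fun z : Circle => (z : ℂ)) := continuous_induced_dom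
  obtain ⟨hΛ1, hΛ2, hΛ3, hΛ4, hΛ5⟩ := hΛ
  set Λ' : Set Circle := {z | (z : ℂ) ∈ Λ} with hΛ'
  have hgrp : CGrp Λ' := by
    refine ⟨hΛ1.preimage Circle.coe_injective, ?_, ?_, ?_⟩
    · show ((1 : Circle) : ℂ) ∈ Λ
      rw [Circle.coe_one]; exact hΛ3
    · intro a ha b hb
      show ((a * b : Circle) : ℂ) ∈ Λ
      rw [Circle.coe_mul]; exact hΛ4 _ ha _ hb
    · intro a ha
      show ((a⁻¹ : Circle) : ℂ) ∈ Λ
      rw [Circle.coe_inv]; exact hΛ5 _ ha
  have hpc : ∀ {n : ℕ} (f : Fin n → Circle) (a : Fin n → ℤ),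
      ((∏ i, f i ^ a i : Circle) : ℂ) = ∏ i, (f i : ℂ) ^ a i := by
    intro n f a
    have h2 : ∀ s : Finset (Fin n), ((∏ j ∈ s, f j ^ a j : Circle) : ℂ)
        = ∏ j ∈ s, (f j : ℂ) ^ a j := by
      intro s
      classical
      induction s using Finset.induction_on with
      | empty => simp
      | insert i s his ih =>
        rw [Finset.prod_insert his, Finset.prod_insert his, Circle.coe_mul, ih,
          Circle.coe_zpow]
    exact h2 Finset.univ
  have hge : ∀ (Q : Ω → Ω) (v : Ω → ℂ) (lam : Ω → Circle), GEig μ Q v lam →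
      IsGenEigen μ Q v (fun x => (lam x : ℂ)) := by
    intro Q v lam ⟨h1, h2, h3, h4⟩
    refine ⟨h1, hcont.measurable.comp h2, fun x => Circle.norm_coe _, fun x => ?_, h4⟩
    show ((lam (Q x) : Circle) : ℂ) = lam x
    rw [h3 x]
  have hrk' : Rk μ ![⇑R, ⇑S, ⇑T] Λ' Z k := by
    intro V L hVL
    have h := hrk (V 2) (V 1) (V 0) (fun i x => (L 2 i x : ℂ)) (fun i x => (L 1 i x : ℂ))
      (fun i x => (L 0 i x : ℂ)) (fun i => hge _ _ _ (hVL 2 i)) (fun i => hge _ _ _ (hVL 1 i))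
      (fun i => hge _ _ _ (hVL 0 i))
    filter_upwards [h] with x hx hxZ hV hL
    obtain ⟨a, ha, haΛ⟩ := hx hxZ (fun i => ⟨hV 2 i, hV 1 i, hV 0 i⟩) (fun i => by
      have h1 := hL 1 i
      have h0 := hL 0 i
      have h1' : ((L 2 i x * (L 1 i x)⁻¹ : Circle) : ℂ) ∈ Λ := h1
      have h0' : ((L 2 i x * (L 0 i x)⁻¹ : Circle) : ℂ) ∈ Λ := h0
      rw [Circle.coe_mul, Circle.coe_inv, ← div_eq_mul_inv] at h1' h0'
      exact ⟨h1', h0'⟩)
    refine ⟨a, ha, ?_⟩
    show ((∏ i, L 2 i x ^ a i : Circle) : ℂ) ∈ Λ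
    rw [hpc]
    exact haΛ
  obtain ⟨m, n, hm, hn, h⟩ := f_FIN Ω μ ![⇑R, ⇑S, ⇑T] ![⇑R.symm, ⇑S.symm, ⇑T.symm]
    (by intro l; fin_cases l; exacts [hR, hS, hT])
    (by intro l; fin_cases l; exacts [hR.symm R, hS.symm S, hT.symm T])
    (by intro l x; fin_cases l; exacts [R.symm_apply_apply x, S.symm_apply_apply x,
          T.symm_apply_apply x])
    (by intro l x; fin_cases l; exacts [R.apply_symm_apply x, S.apply_symm_apply x,
          T.apply_symm_apply x])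
    Λ' Z k hgrp hZ hrk' A hA hAZ
  refine ⟨m, n, hm, hn, fun h0 => h ?_⟩
  refine measure_mono_null ?_ h0
  rintro x ⟨hx1, hx2, hx3, hx4⟩
  exact ⟨⟨⟨hx1, hx2⟩, hx3⟩, hx4⟩

end Pool.Agent.Results.MP_cfac66_an.CommonFiniteRank
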