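import Pool.Agent.FSP.Final

/-!
Multiple recurrence for three non-commuting measure preserving maps at the times `m`, `m + n`,
`m + 2n`, when the generalised eigenvalues of one of the three maps have finite rank modulo a
countable set on an invariant set that meets `A`. Nothing is assumed about the other two maps.
-/

set_option autoImplicit false

open MeasureTheory

universe u

namespace Pool.Agent.Results.MP_cfac66_an.FiniteRank

open Pool.Agent.FSP

/-- The generalised eigenvalues of `T` on the invariant set `Z` have finite rank modulo a countable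
set: there are finitely many measurable `T`-invariant functions `θ j` of modulus one and a countable
set `Λ` of complex numbers such that, whenever `v` is measurable, `lam` is measurable, of modulus
one and `T`-invariant, and `v (T x) = lam x * v x` almost everywhere, then for almost every `x ∈ Z`
with `v x ≠ 0` some power `lam x ^ n`, `n ≥ 1`, is of the form `ζ * ∏ j, θ j x ^ a j` with
`ζ ∈ Λ` and integers `a j`. -/
def HasFiniteRank {Ω : Type u} [MeasurableSpace Ω] (μ : Measure Ω) (T : Ω → Ω) (Z : Set Ω) : Prop :=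
  MeasurableSet Z ∧ T ⁻¹' Z = Z ∧ ∃ (k : ℕ) (θ : Fin k → Ω → ℂ) (Λ : Set ℂ), Λ.Countable ∧
    (∀ j, Measurable (θ j)) ∧ (∀ j x, ‖θ j x‖ = 1) ∧ (∀ j x, θ j (T x) = θ j x) ∧
    ∀ v lam : Ω → ℂ, Measurable v → Measurable lam → (∀ x, ‖lam x‖ = 1) →
      (∀ x, lam (T x) = lam x) → (∀ᵐ x ∂μ, v (T x) = lam x * v x) →
      ∀ᵐ x ∂μ, x ∈ Z → v x ≠ 0 →
        ∃ n : ℕ, 1 ≤ n ∧ ∃ ζ ∈ Λ, ∃ a : Fin k → ℤ, lam x ^ n = ζ * ∏ j, θ j x ^ a j

theorem toFinRank {Ω : Type u} [MeasurableSpace Ω] {μ : Measure Ω} {T : Ω → Ω} {Z : Set Ω}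
    (h : HasFiniteRank μ T Z) : MeasurableSet Z ∧ (∀ x, T x ∈ Z ↔ x ∈ Z) ∧
      ∃ (k : ℕ) (θ : Fin k → Ω → Circle) (Λ : Set Circle), FinRank μ T Z θ Λ := by
  obtain ⟨hZ, hTZ, k, θ, Λ, hΛ, hθ, hθ1, hθT, hfin⟩ := h
  have hcont : Continuous (fun z : Circle => (z : ℂ)) := continuous_induced_dom
  have hmeas : ∀ f : Ω → Circle, Measurable (fun x => (f x : ℂ)) → Measurable f := by
    intro f hf
    apply measurable_of_isOpen
    intro s hs
    obtain ⟨U, hU, rfl⟩ := isOpen_induced_iff.1 hs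
    exact hf hU.measurableSet
  obtain ⟨θ', hθ'⟩ : ∃ θ' : Fin k → Ω → Circle, ∀ j x, (θ' j x : ℂ) = θ j x :=
    ⟨fun j x => ⟨θ j x, mem_sphere_zero_iff_norm.2 (hθ1 j x)⟩, fun _ _ => rfl⟩
  refine ⟨hZ, fun x => ?_, k, θ', {ζ | (ζ : ℂ) ∈ Λ}, ?_, ?_, ?_, ?_⟩
  · show x ∈ T ⁻¹' Z ↔ x ∈ Z
    rw [hTZ]
  · exact hΛ.preimage Circle.coe_injective
  · intro j
    apply hmeas
    simp only [hθ']
    exact hθ j
  · intro j x
    apply Circle.ext
    rw [hθ', hθ', hθT]
  · intro v lam hv hlam hlT hvl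
    have h1 := hfin v (fun x => (lam x : ℂ)) hv (hcont.measurable.comp hlam)
      (fun x => Circle.norm_coe _) (fun x => by rw [hlT x]) hvl
    filter_upwards [h1] with x hx hxZ hvx
    obtain ⟨n, hn, ζ, hζ, a, ha⟩ := hx hxZ hvx
    have hpc : ((∏ j, θ' j x ^ a j : Circle) : ℂ) = ∏ j, θ j x ^ a j := by
      have h2 : ∀ s : Finset (Fin k), ((∏ j ∈ s, θ' j x ^ a j : Circle) : ℂ)
          = ∏ j ∈ s, θ j x ^ a j := by
        intro s
        classical
        induction s using Finset.induction_on with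
        | empty => simp
        | insert i s his ih =>
          rw [Finset.prod_insert his, Finset.prod_insert his, Circle.coe_mul, ih,
            Circle.coe_zpow, hθ']
      exact h2 Finset.univ
    have hpn : ((∏ j, θ' j x ^ a j : Circle) : ℂ) ≠ 0 := Circle.coe_ne_zero _
    have hζc : ζ = ((lam x ^ n * (∏ j, θ' j x ^ a j)⁻¹ : Circle) : ℂ) := by
      rw [Circle.coe_mul, Circle.coe_pow, Circle.coe_inv, ha, ← hpc]
      field_simp
    refine ⟨n, hn, lam x ^ n * (∏ j, θ' j x ^ a j)⁻¹, ?_, a, ?_⟩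
    · show ((lam x ^ n * (∏ j, θ' j x ^ a j)⁻¹ : Circle) : ℂ) ∈ Λ
      rw [← hζc]; exact hζ
    · simp

/-- Let `T, S, R` be invertible measure preserving maps of a probability space and `A` a
measurable set. Suppose that for one of the three maps, `Q`, there is an invariant measurable set
`Z` with `μ (A ∩ Z) ≠ 0` on which the generalised eigenvalues of `Q` have finite rank modulo a
countable set. Then for some `m, n ≥ 1` the set
`A ∩ T^{-m}A ∩ S^{-(m+n)}A ∩ R^{-(m+2n)}A` has positive measure. -/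
theorem result (Ω : Type u) [MeasurableSpace Ω] (μ : Measure Ω) [IsProbabilityMeasure μ]
    (T S R : Ω ≃ᵐ Ω) (hT : MeasurePreserving T μ μ) (hS : MeasurePreserving S μ μ)
    (hR : MeasurePreserving R μ μ) (A : Set Ω) (hA : MeasurableSet A)
    (Z : Set Ω) (hAZ : μ (A ∩ Z) ≠ 0)
    (hfin : HasFiniteRank μ T Z ∨ HasFiniteRank μ S Z ∨ HasFiniteRank μ R Z) :
    ∃ m n : ℕ, 1 ≤ m ∧ 1 ≤ n ∧
      μ (A ∩ (⇑T)^[m] ⁻¹' A ∩ (⇑S)^[m + n] ⁻¹' A ∩ (⇑R)^[m + 2 * n] ⁻¹' A) ≠ 0 := by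
  have hsymm : ∀ Q : Ω ≃ᵐ Ω, MeasurePreserving Q μ μ → MeasurePreserving Q.symm μ μ :=
    fun Q hQ => hQ.symm Q
  rcases hfin with h | h | h
  · -- `T`
    obtain ⟨hZ, hTZ, k, θ, Λ, hF⟩ := toFinRank h
    have hrec := f_REC Ω μ T T.symm (T ∘ T) T.symm S R hT (hsymm T hT)
      (fun x => T.symm_apply_apply x) (fun x => T.apply_symm_apply x) (Or.inr ⟨rfl, rfl⟩)
      hS hR Z A hZ hTZ hA hAZ k θ Λ hF
    obtain ⟨N, -, hN0, hN⟩ := hrec 1
    obtain ⟨i, hi, j, hj, hij⟩ := hN (2 * N + 1) (3 * N + 1)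
    set b := 2 * N + 1 + i with hb
    set c := 3 * N + 1 + j with hc
    refine ⟨2 * b - c, c - b, by omega, by omega, fun h0 => hij ?_⟩
    refine measure_mono_null ?_ h0
    have e1 : 2 * b - c + (c - b) = b := by omega
    have e2 : 2 * b - c + 2 * (c - b) = c := by omega
    rw [e1, e2]
    intro x hx
    obtain ⟨⟨⟨x1, x2⟩, x3⟩, x4⟩ := hx
    refine ⟨⟨⟨x1, ?_⟩, x3⟩, x4⟩
    have e3 : (⇑T ∘ ⇑T)^[b] ((⇑T.symm)^[c] x) = (⇑T)^[2 * b - c] x := by
      rw [Pool.Agent.MRec.iterate_two]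
      have e4 : 2 * b = (2 * b - c) + c := by omega
      rw [e4, Function.iterate_add_apply]
      have e5 : (⇑T)^[c] ((⇑T.symm)^[c] x) = x :=
        Function.LeftInverse.iterate (fun x => T.apply_symm_apply x) c x
      rw [e5]
      congr 2
    show (⇑T)^[2 * b - c] x ∈ A
    rw [← e3]
    exact x2
  · -- `S`
    obtain ⟨hZ, hTZ, k, θ, Λ, hF⟩ := toFinRank h
    have hrec := f_REC Ω μ S S.symm S S (T ∘ T) (R ∘ R) hS (hsymm S hS)
      (fun x => S.symm_apply_apply x) (fun x => S.apply_symm_apply x) (Or.inl ⟨rfl, rfl⟩)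
      (hT.comp hT) (hR.comp hR) Z A hZ hTZ hA hAZ k θ Λ hF
    obtain ⟨N, -, hN0, hN⟩ := hrec 1
    obtain ⟨i, hi, j, hj, hij⟩ := hN 1 (N + 1)
    set a := 1 + i with ha
    set c := N + 1 + j with hc
    refine ⟨2 * a, c - a, by omega, by omega, fun h0 => hij ?_⟩
    refine measure_mono_null ?_ h0
    have e1 : 2 * a + (c - a) = a + c := by omega
    have e2 : 2 * a + 2 * (c - a) = 2 * c := by omega
    rw [e1, e2]
    intro x hx
    obtain ⟨⟨⟨x1, x2⟩, x3⟩, x4⟩ := hx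
    refine ⟨⟨⟨x1, ?_⟩, ?_⟩, ?_⟩
    · show (⇑T)^[2 * a] x ∈ A
      rw [← Pool.Agent.MRec.iterate_two]
      exact x3
    · show (⇑S)^[a + c] x ∈ A
      rw [Function.iterate_add_apply]
      exact x2
    · show (⇑R)^[2 * c] x ∈ A
      rw [← Pool.Agent.MRec.iterate_two]
      exact x4
  · -- `R`
    obtain ⟨hZ, hTZ, k, θ, Λ, hF⟩ := toFinRank h
    have hrec := f_REC Ω μ R R.symm (R ∘ R) R.symm S T hR (hsymm R hR)
      (fun x => R.symm_apply_apply x) (fun x => R.apply_symm_apply x) (Or.inr ⟨rfl, rfl⟩)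
      hS hT Z A hZ hTZ hA hAZ k θ Λ hF
    obtain ⟨N, -, hN0, hN⟩ := hrec 1
    obtain ⟨i, hi, j, hj, hij⟩ := hN (N + 1) 1
    set b := N + 1 + i with hb
    set a := 1 + j with ha
    refine ⟨a, b - a, by omega, by omega, fun h0 => hij ?_⟩
    refine measure_mono_null ?_ h0
    have e1 : a + (b - a) = b := by omega
    have e2 : a + 2 * (b - a) = 2 * b - a := by omega
    rw [e1, e2]
    intro x hx
    obtain ⟨⟨⟨x1, x2⟩, x3⟩, x4⟩ := hx
    refine ⟨⟨⟨x1, x4⟩, x3⟩, ?_⟩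
    have e3 : (⇑R ∘ ⇑R)^[b] ((⇑R.symm)^[a] x) = (⇑R)^[2 * b - a] x := by
      rw [Pool.Agent.MRec.iterate_two]
      have e4 : 2 * b = (2 * b - a) + a := by omega
      rw [e4, Function.iterate_add_apply]
      have e5 : (⇑R)^[a] ((⇑R.symm)^[a] x) = x :=
        Function.LeftInverse.iterate (fun x => R.apply_symm_apply x) a x
      rw [e5]
      congr 2
    show (⇑R)^[2 * b - a] x ∈ A
    rw [← e3]
    exact x2

end Pool.Agent.Results.MP_cfac66_an.FiniteRank
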