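import Pool.Agent.TwoC.ALL

/-! MP_cfac66_an, Q1: failure of recurrence forces the averages along all lines to vanish. -/

set_option autoImplicit false

open MeasureTheory

universe u

namespace Pool.Agent.Results.MP_cfac66_an.LineAverages

open Pool.TwoC

/-- Let `T, S, R` be invertible measure preserving maps of a probability space, with no relation
between them, and let `A` be measurable. Suppose that all the sets
`A ∩ T^{-m}A ∩ S^{-(m+n)}A ∩ R^{-(m+2n)}A` with `m, n ≥ 1` are null. Then for every integer `j` the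
averages of the measures of `{x ∈ A : T^a x ∈ A, S^b x ∈ A, R^c x ∈ A}` along each of the three
lines `c = j`, `a = j` and `b = j` of the plane `a + c = 2b` tend to zero, uniformly in the
position of the window of averaging. -/
theorem result (Ω : Type u) [MeasurableSpace Ω] (μ : Measure Ω) [IsProbabilityMeasure μ]
    (T S R : Ω ≃ᵐ Ω) (hT : MeasurePreserving T μ μ) (hS : MeasurePreserving S μ μ)
    (hR : MeasurePreserving R μ μ) (A : Set Ω) (hA : MeasurableSet A)
    (hfail : ∀ m n : ℕ, 1 ≤ m → 1 ≤ n →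
      μ (A ∩ (⇑T)^[m] ⁻¹' A ∩ (⇑S)^[m + n] ⁻¹' A ∩ (⇑R)^[m + 2 * n] ⁻¹' A) = 0)
    (j : ℤ) (ε : ℝ) (hε : 0 < ε) :
    ∃ N₀ : ℕ, ∀ N ≥ N₀, ∀ s : ℤ,
      ∑ t ∈ Finset.range N, μ.real (E3 T S R A (2 * (s + t) - j) (s + t) j) ≤ ε * N ∧
      ∑ t ∈ Finset.range N, μ.real (E3 T S R A j (s + t) (2 * (s + t) - j)) ≤ ε * N ∧
      ∑ t ∈ Finset.range N, μ.real (E3 T S R A (s + t) j (2 * j - (s + t))) ≤ ε * N :=
  all_LINES Ω μ T S R hT hS hR A hA hfail j ε hε

end Pool.Agent.Results.MP_cfac66_an.LineAverages
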