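import Pool.Agent.MRec.Final

/-!
Multiple recurrence for three non-commuting measure preserving maps at the times `m`, `m + n`,
`m + 2n`, when one of the three maps has an ergodic component of positive measure that meets the
set `A` (for example when one of the three maps is ergodic). Nothing is assumed about the other
two maps.
-/

set_option autoImplicit false

open MeasureTheory

universe u

namespace Pool.Agent.Results.MP_cfac66_an.OneErgodic

open Pool.Agent.MRec

/-- Let `T, S, R` be invertible measure preserving maps of a probability space and `A` a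
measurable set. Suppose that for some measurable `Z` with `μ (A ∩ Z) ≠ 0` one of the three maps is
ergodic for the restriction of `μ` to `Z` (for `Z` the whole space: one of the maps is ergodic and
`μ A ≠ 0`). Then for some `m, n ≥ 1` the set `A ∩ T^{-m}A ∩ S^{-(m+n)}A ∩ R^{-(m+2n)}A` has
positive measure. -/
theorem result (Ω : Type u) [MeasurableSpace Ω] (μ : Measure Ω) [IsProbabilityMeasure μ]
    (T S R : Ω ≃ᵐ Ω) (hT : MeasurePreserving T μ μ) (hS : MeasurePreserving S μ μ)
    (hR : MeasurePreserving R μ μ) (A : Set Ω) (hA : MeasurableSet A)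
    (Z : Set Ω) (hZ : MeasurableSet Z) (hAZ : μ (A ∩ Z) ≠ 0)
    (hErg : Ergodic T (μ.restrict Z) ∨ Ergodic S (μ.restrict Z) ∨ Ergodic R (μ.restrict Z)) :
    ∃ m n : ℕ, 1 ≤ m ∧ 1 ≤ n ∧
      μ (A ∩ (⇑T)^[m] ⁻¹' A ∩ (⇑S)^[m + n] ⁻¹' A ∩ (⇑R)^[m + 2 * n] ⁻¹' A) ≠ 0 := by
  have hZ0 : μ Z ≠ 0 := fun h => hAZ (measure_mono_null Set.inter_subset_right h)
  have hZr : 0 < μ.real Z := by
    rw [measureReal_def]; exact ENNReal.toReal_pos hZ0 (measure_ne_top μ Z)
  have hAZr : 0 < μ.real (A ∩ Z) := by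
    rw [measureReal_def]; exact ENNReal.toReal_pos hAZ (measure_ne_top μ _)
  set ν : Measure Ω := ProbabilityTheory.cond μ Z with hν
  have : IsProbabilityMeasure ν := ProbabilityTheory.cond_isProbabilityMeasure hZ0
  have herg : ∀ Q : Ω ≃ᵐ Ω, Ergodic Q (μ.restrict Z) → Ergodic Q ν := by
    intro Q h
    rw [hν, ProbabilityTheory.cond]
    exact h.smul_measure _
  -- comparison of `ν` and `μ`
  set K : ℝ := (μ.real Z)⁻¹ with hK
  have hK1 : 1 ≤ K := by
    rw [hK]
    exact (one_le_inv₀ hZr).2 measureReal_le_one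
  have hle : ν ≤ ENNReal.ofReal K • μ := by
    rw [hν, ProbabilityTheory.cond]
    have h1 : ENNReal.ofReal K = (μ Z)⁻¹ := by
      rw [hK, ENNReal.ofReal_inv_of_pos hZr, measureReal_def,
        ENNReal.ofReal_toReal (measure_ne_top μ Z)]
    rw [h1]
    intro s
    simp only [Measure.smul_apply, smul_eq_mul]
    gcongr
    exact Measure.restrict_le_self
  have hνA : ν.real A = K * μ.real (A ∩ Z) := by
    rw [measureReal_def, hν, ProbabilityTheory.cond_apply hZ, ENNReal.toReal_mul,
      ENNReal.toReal_inv, Set.inter_comm]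
    rfl
  set δ : ℝ := μ.real (A ∩ Z) / 4 with hδ
  have hδ0 : 0 < δ := by positivity
  have hAδ : 4 * K * δ ≤ ν.real A := by
    rw [hνA, hδ]; apply le_of_eq; ring
  have hac : ∀ s : Set Ω, μ s = 0 → ν s = 0 := fun s hs => by
    have h1 := hle s
    have h2 : (ENNReal.ofReal K • μ) s = ENNReal.ofReal K * μ s := rfl
    rw [h2, hs, mul_zero] at h1
    exact le_antisymm h1 bot_le
  rcases hErg with h | h | h
  · -- `T` ergodic
    have hE := herg T h
    have hrec := recur (Q := T) (Q' := T.symm) (B := T ∘ T) (P := T.symm) hE hE.symm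
      (fun x => T.symm_apply_apply x) (fun x => T.apply_symm_apply x) (Or.inr ⟨rfl, rfl⟩)
      hS hR hA hK1 hδ0 hle hAδ
    obtain ⟨N, -, hN0, hN⟩ := hrec 1
    obtain ⟨i, hi, j, hj, hij⟩ := hN (2 * N + 1) (3 * N + 1)
    set b := 2 * N + 1 + i with hb
    set c := 3 * N + 1 + j with hc
    refine ⟨2 * b - c, c - b, by omega, by omega, fun h0 => hij ?_⟩
    apply hac
    refine measure_mono_null ?_ h0
    have e1 : 2 * b - c + (c - b) = b := by omega
    have e2 : 2 * b - c + 2 * (c - b) = c := by omega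
    rw [e1, e2]
    intro x hx
    obtain ⟨⟨⟨x1, x2⟩, x3⟩, x4⟩ := hx
    refine ⟨⟨⟨x1, ?_⟩, x3⟩, x4⟩
    have e3 : (⇑T ∘ ⇑T)^[b] ((⇑T.symm)^[c] x) = (⇑T)^[2 * b - c] x := by
      rw [iterate_two]
      have e4 : 2 * b = (2 * b - c) + c := by omega
      rw [e4, Function.iterate_add_apply]
      have e5 : (⇑T)^[c] ((⇑T.symm)^[c] x) = x :=
        Function.LeftInverse.iterate (fun x => T.apply_symm_apply x) c x
      rw [e5]
      congr 2
    show (⇑T)^[2 * b - c] x ∈ A
    rw [← e3]
    exact x2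
  · -- `S` ergodic
    have hE := herg S h
    have hrec := recur (Q := S) (Q' := S.symm) (B := S) (P := S) hE hE.symm
      (fun x => S.symm_apply_apply x) (fun x => S.apply_symm_apply x) (Or.inl ⟨rfl, rfl⟩)
      (hT.comp hT) (hR.comp hR) hA hK1 hδ0 hle hAδ
    obtain ⟨N, -, hN0, hN⟩ := hrec 1
    obtain ⟨i, hi, j, hj, hij⟩ := hN 1 (N + 1)
    set a := 1 + i with ha
    set c := N + 1 + j with hc
    refine ⟨2 * a, c - a, by omega, by omega, fun h0 => hij ?_⟩
    apply hac
    refine measure_mono_null ?_ h0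
    have e1 : 2 * a + (c - a) = a + c := by omega
    have e2 : 2 * a + 2 * (c - a) = 2 * c := by omega
    rw [e1, e2]
    intro x hx
    obtain ⟨⟨⟨x1, x2⟩, x3⟩, x4⟩ := hx
    refine ⟨⟨⟨x1, ?_⟩, ?_⟩, ?_⟩
    · show (⇑T)^[2 * a] x ∈ A
      rw [← iterate_two]
      exact x3
    · show (⇑S)^[a + c] x ∈ A
      rw [Function.iterate_add_apply]
      exact x2
    · show (⇑R)^[2 * c] x ∈ A
      rw [← iterate_two]
      exact x4
  · -- `R` ergodic
    have hE := herg R h
    have hrec := recur (Q := R) (Q' := R.symm) (B := R ∘ R) (P := R.symm) hE hE.symm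
      (fun x => R.symm_apply_apply x) (fun x => R.apply_symm_apply x) (Or.inr ⟨rfl, rfl⟩)
      hS hT hA hK1 hδ0 hle hAδ
    obtain ⟨N, -, hN0, hN⟩ := hrec 1
    obtain ⟨i, hi, j, hj, hij⟩ := hN (N + 1) 1
    set b := N + 1 + i with hb
    set a := 1 + j with ha
    refine ⟨a, b - a, by omega, by omega, fun h0 => hij ?_⟩
    apply hac
    refine measure_mono_null ?_ h0
    have e1 : a + (b - a) = b := by omega
    have e2 : a + 2 * (b - a) = 2 * b - a := by omega
    rw [e1, e2]
    intro x hx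
    obtain ⟨⟨⟨x1, x2⟩, x3⟩, x4⟩ := hx
    refine ⟨⟨⟨x1, x4⟩, x3⟩, ?_⟩
    have e3 : (⇑R ∘ ⇑R)^[b] ((⇑R.symm)^[a] x) = (⇑R)^[2 * b - a] x := by
      rw [iterate_two]
      have e4 : 2 * b = (2 * b - a) + a := by omega
      rw [e4, Function.iterate_add_apply]
      have e5 : (⇑R)^[a] ((⇑R.symm)^[a] x) = x :=
        Function.LeftInverse.iterate (fun x => R.apply_symm_apply x) a x
      rw [e5]
      congr 2
    show (⇑R)^[2 * b - a] x ∈ A
    rw [← e3]
    exact x2

end Pool.Agent.Results.MP_cfac66_an.OneErgodic
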