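import Pool.Agent.TwoC.ALL

/-! MP_cfac66_an, Q1: positive answer when two of the three maps commute, the third arbitrary. -/

set_option autoImplicit false

open MeasureTheory

universe u

namespace Pool.Agent.Results.MP_cfac66_an.TwoCommute

open Pool.TwoC

/-- Let `T, S, R` be invertible measure preserving maps of a probability space such that two of
them commute (or only have commuting powers `T^d`, `S^e` with `d, e ≥ 1`), the third one being
arbitrary. Then every set `A` of positive measure admits `m, n ≥ 1` such that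
`A ∩ T^{-m}A ∩ S^{-(m+n)}A ∩ R^{-(m+2n)}A` has positive measure. -/
theorem result (Ω : Type u) [MeasurableSpace Ω] (μ : Measure Ω) [IsProbabilityMeasure μ]
    (T S R : Ω ≃ᵐ Ω) (hT : MeasurePreserving T μ μ) (hS : MeasurePreserving S μ μ)
    (hR : MeasurePreserving R μ μ) (hcomm : Comm2 T S ∨ Comm2 S R ∨ Comm2 T R)
    (A : Set Ω) (hA : MeasurableSet A) (hA0 : μ A ≠ 0) :
    ∃ m n : ℕ, 1 ≤ m ∧ 1 ≤ n ∧
      μ (A ∩ (⇑T)^[m] ⁻¹' A ∩ (⇑S)^[m + n] ⁻¹' A ∩ (⇑R)^[m + 2 * n] ⁻¹' A) ≠ 0 :=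
  all_COMM Ω μ T S R hT hS hR hcomm A hA hA0

end Pool.Agent.Results.MP_cfac66_an.TwoCommute
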